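import Mathlib
import Pool.Agent.Results.MP_555c3f_al.PowerOfTwoBound

/-!
# MP_e9426e_al : small rational solutions of systems `x_i = 1`, `x_i + x_j = x_k`

Every complex tuple `x` can be replaced by a rational tuple `y` with entries in
`[-2^(n-1), 2^(n-1)]` satisfying all equations `y_i = 1`, `y_i + y_j = y_k` that `x` satisfies.
-/

namespace Pool.Agent.Results.MP_e9426e_al.SmallRational

open Pool.Agent.Results.MP_555c3f_al.PowerOfTwoBound

/-- `y` satisfies all the equations of `W_n` that `x` satisfies. -/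
def Sol {n : ℕ} (x y : Fin n → ℂ) : Prop :=
  (∀ i, x i = 1 → y i = 1) ∧ ∀ i j k, x i + x j = x k → y i + y j = y k

open Classical in
theorem exists_rigid {n : ℕ} (x : Fin n → ℂ) :
    ∃ y : Fin n → ℂ, Sol x y ∧ ∀ z, Sol y z → z = y := by
  let supp : (Fin n → ℂ) → Finset (Fin n) := fun y => Finset.univ.filter (fun i => y i ≠ 0)
  have hP : ∃ k, ∃ y : Fin n → ℂ, Sol x y ∧ (supp y).card = k :=
    ⟨_, x, ⟨fun _ h => h, fun _ _ _ h => h⟩, rfl⟩
  obtain ⟨y, hy, hyk⟩ := Nat.find_spec hP
  refine ⟨y, hy, fun z hz => ?_⟩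
  by_contra hne
  obtain ⟨j, hj⟩ : ∃ j, z j ≠ y j := by
    by_contra h
    push Not at h
    exact hne (funext h)
  have hzero : ∀ i, y i = 0 → z i = 0 := by
    intro i hi
    have h1 := hz.2 i i i (by rw [hi, add_zero])
    simpa using h1
  have hyj : y j ≠ 0 := fun h => hj (by rw [h, hzero j h])
  have hd : y j - z j ≠ 0 := sub_ne_zero.2 (Ne.symm hj)
  let t : ℂ := y j / (y j - z j)
  let w : Fin n → ℂ := fun i => y i + t * (z i - y i)
  have hw : Sol x w := by
    constructor
    · intro i hi
      have h1 := hy.1 i hi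
      have h2 := hz.1 i h1
      simp only [w, h1, h2]
      ring
    · intro i k l h
      have h1 := hy.2 i k l h
      have h2 := hz.2 i k l h1
      simp only [w]
      linear_combination (1 - t) * h1 + t * h2
  have hwj : w j = 0 := by
    simp only [w, t]
    field_simp
    ring
  have hsub : supp w ⊂ supp y := by
    rw [Finset.ssubset_iff_of_subset]
    · refine ⟨j, ?_, ?_⟩
      · simp [supp, hyj]
      · simp [supp, hwj]
    · intro i hi
      simp only [supp, Finset.mem_filter, Finset.mem_univ, true_and] at hi ⊢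
      intro h
      apply hi
      simp only [w, h, hzero i h]
      ring
  have h1 := Finset.card_lt_card hsub
  rw [hyk] at h1
  exact Nat.find_min hP h1 ⟨w, hw, rfl⟩

/-- **Main result.** For all complex numbers `x_1, …, x_n` there are rational numbers
`y_1, …, y_n ∈ [-2^(n-1), 2^(n-1)]` satisfying all equations `y_i = 1` and `y_i + y_j = y_k` that
`x` satisfies. -/
theorem result (n : ℕ) (x : Fin n → ℂ) :
    ∃ y : Fin n → ℚ, (∀ i, |y i| ≤ 2 ^ (n - 1)) ∧ (∀ i, x i = 1 → y i = 1) ∧
      ∀ i j k, x i + x j = x k → y i + y j = y k := by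
  obtain ⟨y, hy, hrigid⟩ := exists_rigid x
  have key : ∀ i, ∃ r : ℚ, y i = (r : ℂ) ∧ |r.num| ≤ 2 ^ (n - 1) ∧ r.den ≤ 2 ^ (n - 1) := by
    refine MP_555c3f_al.PowerOfTwoBound.result n {e | e.Holds y} y ?_
    intro z
    constructor
    · intro h
      refine hrigid z ⟨fun i hi => ?_, fun i j k hijk => ?_⟩
      · exact h (.one i) hi
      · exact h (.add i j k) hijk
    · rintro rfl e he
      exact he
  choose r hr hnum _ using key
  refine ⟨r, fun i => ?_, fun i hi => ?_, fun i j k h => ?_⟩
  · have h1 : |r i| ≤ |((r i).num : ℚ)| := by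
      have h2 : (r i) = (r i).num / (r i).den := (Rat.num_div_den (r i)).symm
      have h3 : (1 : ℚ) ≤ (r i).den := by exact_mod_cast (r i).pos
      rw [abs_le]
      have h4 : |r i| ≤ |((r i).num : ℚ)| := by
        calc |r i| = |((r i).num : ℚ) / (r i).den| := by rw [← h2]
          _ = |((r i).num : ℚ)| / (r i).den := by
              rw [abs_div, abs_of_nonneg (a := ((r i).den : ℚ)) (by positivity)]
          _ ≤ |((r i).num : ℚ)| := div_le_self (abs_nonneg _) h3
      exact abs_le.1 h4
    refine h1.trans ?_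
    exact_mod_cast hnum i
  · have h1 := hy.1 i hi
    rw [hr i] at h1
    exact_mod_cast h1
  · have h1 := hy.2 i j k h
    rw [hr i, hr j, hr k] at h1
    exact_mod_cast h1

end Pool.Agent.Results.MP_e9426e_al.SmallRational
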